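import Mathlib
import Pool.Agent.Helper94.Tot.Goals

/-!
# The counting lemma (packet Cnt of `MP_05f971_nt`)
-/

set_option autoImplicit false

open Finset

namespace Pool.Agent.Helper69.Tot

open Pool.Agent.Helper94.Tot

/-- a divisor of `a k + 1` is coprime to `a` and to `k` -/
theorem cop_left {e a k : ℕ} (h : e ∣ a * k + 1) : Nat.Coprime e a := by
  have h1 : Nat.gcd e a ∣ a * k + 1 := (Nat.gcd_dvd_left e a).trans h
  have h2 : Nat.gcd e a ∣ a * k := (Nat.gcd_dvd_right e a).mul_right k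
  have h3 : Nat.gcd e a ∣ 1 := (Nat.dvd_add_right h2).1 h1
  exact Nat.dvd_one.1 h3

/-- if `e` divides `b m k + 1` and `b m' k + 1`, then `m ≡ m'` modulo `e` -/
theorem modEq_of {e b k m m' : ℕ} (h : e ∣ b * m * k + 1) (h' : e ∣ b * m' * k + 1) :
    m ≡ m' [MOD e] := by
  have hc : Nat.Coprime e (b * k) := by
    have : b * m * k + 1 = (b * k) * m + 1 := by ring
    rw [this] at h
    exact cop_left h
  have h1 : (b * k) * m + 1 ≡ (b * k) * m' + 1 [MOD e] := by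
    have e1 : (b * k) * m + 1 = b * m * k + 1 := by ring
    have e2 : (b * k) * m' + 1 = b * m' * k + 1 := by ring
    rw [e1, e2]
    exact ((Nat.modEq_zero_iff_dvd).2 h).trans ((Nat.modEq_zero_iff_dvd).2 h').symm
  exact Nat.ModEq.cancel_left_of_coprime hc (Nat.ModEq.add_right_cancel' 1 h1)

/-- existence of a solution of `a x + 1 ≡ 0` -/
theorem exists_sol {a n : ℕ} (hn : 1 ≤ n) (h : Nat.Coprime n a) : ∃ x, n ∣ a * x + 1 := by
  have : NeZero n := ⟨by omega⟩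
  have hu : IsUnit ((a : ℕ) : ZMod n) := (ZMod.isUnit_iff_coprime a n).2 h.symm
  obtain ⟨u, hu⟩ := hu
  refine ⟨(-((u⁻¹ : (ZMod n)ˣ) : ZMod n)).val, ?_⟩
  rw [← ZMod.natCast_eq_zero_iff]
  push_cast
  rw [ZMod.natCast_zmod_val, ← hu]
  simp

/-- `n ∣ a x + 1` depends only on the class of `x` modulo `n` -/
theorem dvd_congr_of {n a x y : ℕ} (h : x ≡ y [MOD n]) (hy : n ∣ a * y + 1) : n ∣ a * x + 1 := by
  have h1 : a * x + 1 ≡ a * y + 1 [MOD n] := (h.mul_left a).add_right 1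
  exact (Nat.modEq_zero_iff_dvd).1 (h1.trans ((Nat.modEq_zero_iff_dvd).2 hy))

/-- two solutions of `n ∣ a x + 1` are congruent modulo `n` -/
theorem modEq_sol {n a x y : ℕ} (hx : n ∣ a * x + 1) (hy : n ∣ a * y + 1) : x ≡ y [MOD n] := by
  have hc : Nat.Coprime n a := cop_left hx
  have h1 : a * x + 1 ≡ a * y + 1 [MOD n] :=
    ((Nat.modEq_zero_iff_dvd).2 hx).trans ((Nat.modEq_zero_iff_dvd).2 hy).symm
  exact Nat.ModEq.cancel_left_of_coprime hc (Nat.ModEq.add_right_cancel' 1 h1)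

/-- the number of elements of a residue class in `[1, K]` -/
theorem card_class (K Q c : ℕ) (hQ : 0 < Q) :
    |(((Icc 1 K).filter (fun k => k ≡ c [MOD Q])).card : ℝ) - (K : ℝ) / Q| ≤ 1 := by
  have h0 : Icc 1 K = Ioc 0 K := by
    ext x
    simp [Nat.succ_le_iff]
  rw [h0]
  have h1 := Nat.Ioc_filter_modEq_card 0 K hQ c
  have hQ' : (0 : ℚ) < Q := by exact_mod_cast hQ
  have hm : ⌊((0 : ℕ) - (c : ℚ)) / (Q : ℚ)⌋ ≤ ⌊((K : ℚ) - (c : ℚ)) / (Q : ℚ)⌋ := by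
    apply Int.floor_le_floor
    gcongr
    simp
  rw [max_eq_left (by linarith)] at h1
  have a1 := Int.floor_le (((K : ℚ) - (c : ℚ)) / (Q : ℚ))
  have a2 := Int.lt_floor_add_one (((K : ℚ) - (c : ℚ)) / (Q : ℚ))
  have b1 := Int.floor_le ((((0 : ℕ) : ℚ) - (c : ℚ)) / (Q : ℚ))
  have b2 := Int.lt_floor_add_one ((((0 : ℕ) : ℚ) - (c : ℚ)) / (Q : ℚ))
  have hsub : ((K : ℚ) - (c : ℚ)) / (Q : ℚ) - (((0 : ℕ) : ℚ) - (c : ℚ)) / (Q : ℚ) = K / Q := by
    push_cast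
    ring
  have h2 : ((((Ioc 0 K).filter (fun k => k ≡ c [MOD Q])).card : ℤ) : ℚ)
      = ((⌊((K : ℚ) - (c : ℚ)) / (Q : ℚ)⌋ - ⌊(((0 : ℕ) : ℚ) - (c : ℚ)) / (Q : ℚ)⌋ : ℤ) : ℚ) := by
    exact_mod_cast h1
  have h3 : |((((Ioc 0 K).filter (fun k => k ≡ c [MOD Q])).card : ℚ)) - (K : ℚ) / Q| ≤ 1 := by
    rw [Int.cast_natCast] at h2
    rw [h2, ← hsub, abs_le]
    push_cast at *
    constructor <;> linarith
  have h4 : (((|((((Ioc 0 K).filter (fun k => k ≡ c [MOD Q])).card : ℚ)) - (K : ℚ) / Q| : ℚ)) : ℝ)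
      ≤ ((1 : ℚ) : ℝ) := Rat.cast_le.2 h3
  push_cast at h4
  exact h4

/-- **Packet Cnt.** -/
theorem pf_Cnt : StmtCnt := by
  intro e b K m m' d d' he hb hK hm hm' hd hd' hde hde'
  have hd0 : 1 ≤ d := Nat.one_le_iff_ne_zero.2 hd.ne_zero
  have hd0' : 1 ≤ d' := Nat.one_le_iff_ne_zero.2 hd'.ne_zero
  refine ⟨?_, ?_⟩
  · intro hcon
    rw [card_eq_zero, filter_eq_empty_iff]
    rintro k - ⟨⟨h1, h2⟩, ⟨h3, h4⟩⟩
    apply hcon
    refine ⟨cop_left h1, modEq_of h1 h2, cop_left h3, cop_left h4, ?_⟩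
    exact modEq_of ((Nat.gcd_dvd_left d d').trans h3) ((Nat.gcd_dvd_right d d').trans h4)
  · rintro ⟨c1, c2, c3, c4, c5⟩
    -- solutions of the three congruences
    obtain ⟨x, hx⟩ := exists_sol he c1
    obtain ⟨y, hy⟩ := exists_sol hd0 c3
    obtain ⟨y', hy'⟩ := exists_sol hd0' c4
    have hg1 : Nat.gcd d d' ∣ b * m * y + 1 := (Nat.gcd_dvd_left d d').trans hy
    have hg2 : Nat.gcd d d' ∣ b * m' * y' + 1 := (Nat.gcd_dvd_right d d').trans hy'
    have hyy : y ≡ y' [MOD Nat.gcd d d'] := by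
      have h1 : b * m * y' + 1 ≡ b * m' * y' + 1 [MOD Nat.gcd d d'] :=
        ((c5.mul_left b).mul_right y').add_right 1
      have h2 : Nat.gcd d d' ∣ b * m * y' + 1 :=
        (Nat.modEq_zero_iff_dvd).1 (h1.trans ((Nat.modEq_zero_iff_dvd).2 hg2))
      exact modEq_sol hg1 h2
    obtain ⟨z, hz1, hz2⟩ := Nat.chineseRemainder' hyy
    have hlc : Nat.Coprime e (Nat.lcm d d') := by
      have : Nat.Coprime e (d * d') := Nat.Coprime.mul_right hde.symm hde'.symm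
      exact Nat.Coprime.coprime_dvd_right (Nat.lcm_dvd_mul d d') this
    obtain ⟨c, hc1, hc2⟩ := Nat.chineseRemainder hlc x z
    have s1 : e ∣ b * m * c + 1 := dvd_congr_of hc1 hx
    have s3 : d ∣ b * m * c + 1 :=
      dvd_congr_of ((hc2.of_dvd (Nat.dvd_lcm_left d d')).trans hz1) hy
    have s4 : d' ∣ b * m' * c + 1 :=
      dvd_congr_of ((hc2.of_dvd (Nat.dvd_lcm_right d d')).trans hz2) hy'
    have hQ : 0 < e * Nat.lcm d d' :=
      Nat.mul_pos he (Nat.lcm_pos hd0 hd0')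
    have hset : (Icc 1 K).filter (fun k => (e ∣ b * m * k + 1 ∧ e ∣ b * m' * k + 1) ∧
        (d ∣ b * m * k + 1 ∧ d' ∣ b * m' * k + 1))
        = (Icc 1 K).filter (fun k => k ≡ c [MOD (e * Nat.lcm d d')]) := by
      apply filter_congr
      intro k _
      constructor
      · rintro ⟨⟨h1, h2⟩, ⟨h3, h4⟩⟩
        have t1 : k ≡ c [MOD e] := modEq_sol h1 s1
        have t2 : k ≡ c [MOD Nat.lcm d d'] := Nat.mod_lcm (modEq_sol h3 s3) (modEq_sol h4 s4)
        exact (Nat.modEq_and_modEq_iff_modEq_mul hlc).1 ⟨t1, t2⟩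
      · intro hk
        have t1 : k ≡ c [MOD e] := hk.of_dvd (Nat.dvd_mul_right _ _)
        have t2 : k ≡ c [MOD Nat.lcm d d'] := hk.of_dvd (Nat.dvd_mul_left _ _)
        have r1 : e ∣ b * m * k + 1 := dvd_congr_of t1 s1
        refine ⟨⟨r1, ?_⟩, dvd_congr_of (t2.of_dvd (Nat.dvd_lcm_left d d')) s3,
          dvd_congr_of (t2.of_dvd (Nat.dvd_lcm_right d d')) s4⟩
        have h1 : b * m * k + 1 ≡ b * m' * k + 1 [MOD e] :=
          ((c2.mul_left b).mul_right k).add_right 1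
        exact (Nat.modEq_zero_iff_dvd).1 (h1.symm.trans ((Nat.modEq_zero_iff_dvd).2 r1))
    rw [hset]
    have hfin := card_class K (e * Nat.lcm d d') c hQ
    have hquot : (K : ℝ) / ((e * Nat.lcm d d' : ℕ) : ℝ)
        = K * (Nat.gcd d d' : ℝ) / (e * d * d') := by
      have hgl : (Nat.gcd d d' : ℝ) * (Nat.lcm d d' : ℝ) = d * d' := by
        exact_mod_cast Nat.gcd_mul_lcm d d'
      have he' : (0 : ℝ) < e := by exact_mod_cast he
      have hdr : (0 : ℝ) < d := by exact_mod_cast hd0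
      have hdr' : (0 : ℝ) < d' := by exact_mod_cast hd0'
      have hl : (0 : ℝ) < (Nat.lcm d d' : ℝ) := by exact_mod_cast Nat.lcm_pos hd0 hd0'
      push_cast
      rw [div_eq_div_iff (by positivity) (by positivity)]
      calc (K : ℝ) * (e * d * d') = K * e * (d * d') := by ring
        _ = K * e * ((Nat.gcd d d' : ℝ) * (Nat.lcm d d' : ℝ)) := by rw [hgl]
        _ = K * (Nat.gcd d d' : ℝ) * (e * (Nat.lcm d d' : ℝ)) := by ring
    rw [hquot] at hfin
    exact hfin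

end Pool.Agent.Helper69.Tot
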